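import Pool.Agent.AT5.Stmts2

/-!
# Squad AT5, modules CHR and CYQ
-/

noncomputable section

namespace Pool.Agent.PP.T5.H41

open Pool.Agent.Helper51_AWC Pool.Agent.Helper79_WRA Pool.Agent.PP Pool.Agent.PP.T5

theorem card_zp {G : Type} [Group G] {n : ℕ} {u : G} (h : orderOf u = n) :
    Nat.card (Subgroup.zpowers u) = n := by
  rw [Nat.card_zpowers, h]

theorem om_eq (hOMF : OmfStmt) (ℓ : ℕ) [Fact ℓ.Prime] {G : Type} [Group G] [Finite G] {a : ℕ}
    {W : Subgroup G} {u v : G} (ha : 0 < a) (hu : u ∈ W) (hou : orderOf u = ℓ ^ a)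
    (hW : Nat.card W < ℓ ^ (2 * a)) (hv : v ∈ W) (hov : orderOf v = ℓ ^ a) :
    Om ℓ a u = Om ℓ a v := by
  obtain ⟨-, cu, nu, lu, -, -, ru, -⟩ := hOMF ℓ G a u ha hou
  obtain ⟨-, cv, nv, lv, -, -, rv, -⟩ := hOMF ℓ G a v ha hov
  -- the intersection is not trivial
  have hne : Subgroup.zpowers u ⊓ Subgroup.zpowers v ≠ ⊥ := by
    intro hbot
    have huW : Subgroup.zpowers u ≤ W := (Subgroup.zpowers_le).2 hu
    have hvW : Subgroup.zpowers v ≤ W := (Subgroup.zpowers_le).2 hv
    let f : Subgroup.zpowers u × Subgroup.zpowers v → W := fun t =>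
      ⟨(t.1 : G) * (t.2 : G), W.mul_mem (huW t.1.2) (hvW t.2.2)⟩
    have hf : Function.Injective f := by
      rintro ⟨x, y⟩ ⟨x', y'⟩ hxy
      have h1 : (x : G) * (y : G) = (x' : G) * (y' : G) := congrArg Subtype.val hxy
      have h2 : (x' : G)⁻¹ * (x : G) = (y' : G) * (y : G)⁻¹ := by
        rw [inv_mul_eq_iff_eq_mul, ← mul_assoc, ← h1, mul_assoc, mul_inv_cancel, mul_one]
      have h3 : (x' : G)⁻¹ * (x : G) ∈ Subgroup.zpowers u ⊓ Subgroup.zpowers v := by
        refine ⟨Subgroup.mul_mem _ (Subgroup.inv_mem _ x'.2) x.2, ?_⟩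
        show (x' : G)⁻¹ * (x : G) ∈ Subgroup.zpowers v
        rw [h2]
        exact Subgroup.mul_mem _ y'.2 (Subgroup.inv_mem _ y.2)
      rw [hbot, Subgroup.mem_bot] at h3
      have hx : (x : G) = (x' : G) := by
        rw [inv_mul_eq_one] at h3
        exact h3.symm
      have hy : (y : G) = (y' : G) := by
        rw [h3] at h2
        exact (mul_inv_eq_one.1 h2.symm).symm
      exact Prod.ext (Subtype.ext hx) (Subtype.ext hy)
    have hc := Nat.card_le_card_of_injective f hf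
    rw [Nat.card_prod, card_zp hou, card_zp hov, ← pow_add, ← two_mul] at hc
    omega
  obtain ⟨w, hw1⟩ := (Subgroup.ne_bot_iff_exists_ne_one).1 hne
  have h1 : Om ℓ a u ≤ Subgroup.zpowers (w : G) := ru _ w.2.1 (fun h' => hw1 (Subtype.ext h'))
  have h2 : Om ℓ a u ≤ Subgroup.zpowers v := h1.trans ((Subgroup.zpowers_le).2 w.2.2)
  obtain ⟨w', hw'⟩ := (Subgroup.ne_bot_iff_exists_ne_one).1 nu
  have h3 : Om ℓ a v ≤ Subgroup.zpowers (w' : G) :=
    rv _ (h2 w'.2) (fun h' => hw' (Subtype.ext h'))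
  have h4 : Om ℓ a v ≤ Om ℓ a u := h3.trans ((Subgroup.zpowers_le).2 w'.2)
  exact (Subgroup.eq_of_le_of_card_ge h4 (by rw [cu, cv])).symm

theorem chr (hOMF : OmfStmt) : ChrStmt := by
  intro ℓ _ G _ _ a W u ha hu hcu hou hW
  refine ⟨fun v hv _ hov => om_eq hOMF ℓ ha hu hou hW hv hov, fun n hn => ?_⟩
  have hnu : n * u * n⁻¹ ∈ W := (Subgroup.mem_normalizer_iff.1 hn u).1 hu
  obtain ⟨-, -, -, -, -, cj, -, -⟩ := hOMF ℓ G a u ha hou
  have h1 : Om ℓ a u = Om ℓ a (n * u * n⁻¹) := om_eq hOMF ℓ ha hu hou hW hnu (cj n).2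
  rw [← (cj n).1] at h1
  rw [Subgroup.mem_normalizer_iff]
  intro x
  constructor
  · intro hx
    have h2 : n * x * n⁻¹ ∈ conjS n (Om ℓ a u) := by
      rw [mem_conjS]
      have : n⁻¹ * (n * x * n⁻¹) * n = x := by group
      rw [this]
      exact hx
    rw [← h1] at h2
    exact h2
  · intro hx
    have h2 : n * x * n⁻¹ ∈ conjS n (Om ℓ a u) := by
      rw [← h1]
      exact hx
    rw [mem_conjS] at h2
    have : n⁻¹ * (n * x * n⁻¹) * n = x := by group
    rw [this] at h2
    exact h2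

theorem cyq : CyqStmt := by
  intro ℓ _ G A _ _ _ _ a p k V P N g φ V' hV hP hPN hV' hcen
  refine ⟨hV.pos, hV.lt, hcen, ?_, ?_⟩
  · rw [hV']
    calc Nat.card ((P.subgroupOf N).map φ) ≤ Nat.card (P.subgroupOf N) :=
          Nat.card_le_card_of_surjective _ (φ.subgroupMap_surjective (P.subgroupOf N))
      _ = Nat.card P := Nat.card_congr (Subgroup.subgroupOfEquivOfLe hPN).toEquiv
      _ ≤ Nat.card (conjS g V) := Subgroup.card_le_of_le hP
      _ = Nat.card V := card_conjS g V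
      _ ≤ ℓ ^ (a + p) := hV.card
  · obtain ⟨B, hBV, hBc, hBi⟩ := hV.ab
    refine ⟨((P ⊓ conjS g B).subgroupOf N).map φ, ?_, ?_, ?_⟩
    · rw [hV']
      apply Subgroup.map_mono
      intro x hx
      rw [Subgroup.mem_subgroupOf] at hx ⊢
      exact hx.1
    · rintro _ ⟨x, hx, rfl⟩ _ ⟨y, hy, rfl⟩
      rw [← map_mul, ← map_mul]
      congr 1
      apply Subtype.ext
      have hx2 : (x : G) ∈ conjS g B := (Subgroup.mem_subgroupOf.1 hx).2
      have hy2 : (y : G) ∈ conjS g B := (Subgroup.mem_subgroupOf.1 hy).2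
      rw [mem_conjS] at hx2 hy2
      have h := hBc _ hx2 _ hy2
      show (x : G) * (y : G) = (y : G) * (x : G)
      have h2 := congrArg (fun t => g * t * g⁻¹) h
      simpa [mul_assoc] using h2
    · have hfin : (conjS g B).relIndex (conjS g V) = B.relIndex V :=
        Subgroup.relIndex_map_map_of_injective _ _ (MulAut.conj g).injective
      rw [hV', ← Subgroup.relIndex_comap]
      calc (Subgroup.comap φ (((P ⊓ conjS g B).subgroupOf N).map φ)).relIndex (P.subgroupOf N)
          ≤ ((P ⊓ conjS g B).subgroupOf N).relIndex (P.subgroupOf N) := by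
            apply Subgroup.relIndex_le_of_le_left (Subgroup.le_comap_map _ _)
            exact Subgroup.index_ne_zero_of_finite
        _ = (P ⊓ conjS g B).relIndex P := Subgroup.relIndex_subgroupOf hPN
        _ = (conjS g B).relIndex P := Subgroup.inf_relIndex_left _ _
        _ ≤ (conjS g B).relIndex (conjS g V) := by
            apply Subgroup.relIndex_le_of_le_right hP
            exact Subgroup.index_ne_zero_of_finite
        _ = B.relIndex V := hfin
        _ ≤ ℓ ^ k := hBi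

end Pool.Agent.PP.T5.H41
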